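import Mathlib
import Pool.Agent.W635.Smm

set_option autoImplicit false

/-!
Countable ideal independent families extend to maximal ones of size `ℵ₁`.
-/

namespace Pool.Agent.Y375.MI

open Set Cardinal Filter Pool.Agent.W635.Smm

section

variable {W : Type} [LinearOrder W] [WellFoundedLT W]

/-- The recursion. -/
theorem exists_sets' (hW : ∀ a : W, (Iio a).Countable) {p : Ultrafilter ℕ}
    (hp : ∀ n : ℕ, {n} ∉ p) (V : W → Set ℕ) (hV : ∀ a, V a ∉ p)
    (D : ℕ → Set ℕ) (hD : ∀ n, D n ∉ p) :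
    ∃ A : W → Set ℕ, (∀ a, (A a).Infinite) ∧ (∀ a b, b < a → (A a ∩ V b).Finite) ∧
      (∀ a b, b < a → (A a ∩ A b).Finite) ∧ ∀ a n, (A a ∩ D n).Finite := by
  have key : ∀ (a : W) (f : ∀ b : W, b < a → {s : Set ℕ // s ∉ p}),
      ∃ s : {s : Set ℕ // s ∉ p}, s.1.Infinite ∧ (∀ b, b < a → (s.1 ∩ V b).Finite) ∧
        (∀ (b : W) (h : b < a), (s.1 ∩ (f b h).1).Finite) ∧ ∀ n, (s.1 ∩ D n).Finite := by
    intro a f
    obtain ⟨𝒞, h𝒞⟩ : ∃ 𝒞 : Set (Set ℕ), 𝒞 = range D ∪ (V '' Iio a ∪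
        range (fun b : Iio a => (f b.1 b.2).1)) := ⟨_, rfl⟩
    have hcount : 𝒞.Countable := by
      rw [h𝒞]
      have : Countable (Iio a) := (hW a).to_subtype
      exact (countable_range _).union (((hW a).image _).union (countable_range _))
    have hne : 𝒞.Nonempty := ⟨D 0, by rw [h𝒞]; left; exact ⟨0, rfl⟩⟩
    obtain ⟨C, hC⟩ := hcount.exists_eq_range hne
    obtain ⟨A, hA1, hA2, hA3⟩ := step hp C (by
      intro k
      have : C k ∈ 𝒞 := by rw [hC]; exact mem_range_self k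
      rw [h𝒞] at this
      rcases this with ⟨n, h⟩ | ⟨b, hb, h⟩ | ⟨b, h⟩
      · rw [← h]; exact hD n
      · rw [← h]; exact hV b
      · rw [← h]; exact (f b.1 b.2).2)
    have hA4 : ∀ s ∈ 𝒞, (A ∩ s).Finite := by
      intro s hs
      rw [hC] at hs
      obtain ⟨k, rfl⟩ := hs
      exact hA3 k
    refine ⟨⟨A, hA2⟩, hA1, ?_, ?_, ?_⟩
    · intro b hb
      apply hA4
      rw [h𝒞]; right; left; exact ⟨b, hb, rfl⟩
    · intro b hb
      apply hA4
      rw [h𝒞]; right; right; exact ⟨⟨b, hb⟩, rfl⟩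
    · intro n
      apply hA4
      rw [h𝒞]; left; exact ⟨n, rfl⟩
  choose g hg1 hg2 hg3 hg4 using key
  obtain ⟨A, hA⟩ : ∃ A : W → {s : Set ℕ // s ∉ p}, ∀ a, A a = g a (fun b _ => A b) :=
    ⟨(wellFounded_lt (α := W)).fix g, fun a => WellFounded.fix_eq _ _ _⟩
  refine ⟨fun a => (A a).1, ?_, ?_, ?_, ?_⟩
  · intro a
    show (A a).1.Infinite
    rw [hA a]; exact hg1 _ _
  · intro a b hb
    show ((A a).1 ∩ V b).Finite
    rw [hA a]; exact hg2 _ _ b hb
  · intro a b hb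
    show ((A a).1 ∩ (A b).1).Finite
    rw [hA a]; exact hg3 a _ b hb
  · intro a n
    show ((A a).1 ∩ D n).Finite
    rw [hA a]; exact hg4 a _ n

/-- **Main construction.** -/
theorem exists_ext (hW : ∀ a : W, (Iio a).Countable) (hW2 : ∀ s : Set W, s.Countable →
      ∃ b, ∀ a ∈ s, a < b) (hcard : #(W × W × W × Bool) = #W) (hWinf : ℵ₀ ≤ #W)
    {p : Ultrafilter ℕ} (hp : ∀ n : ℕ, {n} ∉ p) (V : W → Set ℕ) (hV : ∀ a, V a ∉ p)
    (hV2 : ∀ X : Set ℕ, X ∉ p → ∃ a, X ⊆ V a)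
    (G : W → ℕ → ℕ) (hG : ∀ f : ℕ → ℕ, ∃ a, ∀ n, f n ≤ G a n)
    (D E : ℕ → Set ℕ) (hE : ∀ n, (E n).Infinite) (hED : ∀ n, E n ⊆ D n)
    (hEm : ∀ n m, n ≠ m → (E n ∩ D m).Finite) (hDp : ∀ n, D n ∉ p) :
    ∃ I : Set (Set ℕ), MaximalIdealIndependent I ∧ range D ⊆ I ∧ #I = #W := by
  classical
  obtain ⟨A₀, hA01, hA02, hA03, hA04⟩ := exists_sets' hW hp V hV D hDp
  obtain ⟨A, hAl, hAr⟩ : ∃ A : ℕ ⊕ W → Set ℕ, (∀ n, A (Sum.inl n) = E n) ∧
      ∀ a, A (Sum.inr a) = A₀ a := ⟨Sum.elim E A₀, fun _ => rfl, fun _ => rfl⟩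
  have hA1 : ∀ a, (A a).Infinite := by
    rintro (n | a)
    · rw [hAl]; exact hE n
    · rw [hAr]; exact hA01 a
  have hAlD : ∀ (i : ℕ ⊕ W) (n : ℕ), i ≠ Sum.inl n → (A i ∩ D n).Finite := by
    rintro (m | a) n h
    · rw [hAl]; exact hEm m n (fun h' => h (by rw [h']))
    · rw [hAr]; exact hA04 a n
  have hAD : ∀ a b, a ≠ b → (A a ∩ A b).Finite := by
    rintro (n | a) (m | b) hab
    · refine (hAlD (Sum.inl n) m hab).subset (inter_subset_inter_right _ ?_)
      rw [hAl]; exact hED m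
    · rw [inter_comm]
      refine (hAlD (Sum.inr b) n (by simp)).subset (inter_subset_inter_right _ ?_)
      rw [hAl]; exact hED n
    · refine (hAlD (Sum.inr a) m (by simp)).subset (inter_subset_inter_right _ ?_)
      rw [hAl]; exact hED m
    · rw [hAr, hAr]
      have hab' : a ≠ b := fun h => hab (by rw [h])
      rcases lt_or_gt_of_ne hab' with h | h
      · rw [inter_comm]; exact hA03 b a h
      · exact hA03 a b h
  -- enumerations of the sets `A a`
  obtain ⟨e, he1, he2⟩ : ∃ e : ℕ ⊕ W → ℕ → ℕ, (∀ a, Function.Injective (e a)) ∧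
      ∀ a, range (e a) = A a := by
    refine ⟨fun a => Nat.nth (· ∈ A a), fun a => Nat.nth_injective (hA1 a), fun a => ?_⟩
    exact Nat.range_nth_of_infinite (hA1 a)
  -- `X` belongs to the ultrafilter `p_a`
  have fin_not : ∀ (a : ℕ ⊕ W) (X : Set ℕ), (A a ∩ X).Finite → e a ⁻¹' X ∉ p := by
    intro a X hX
    apply finite_notMem hp
    have h1 : e a ⁻¹' X = e a ⁻¹' (A a ∩ X) := by
      ext m
      simp only [mem_preimage, mem_inter_iff]
      constructor
      · intro h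
        exact ⟨he2 a ▸ mem_range_self m, h⟩
      · exact fun h => h.2
    rw [h1]
    exact hX.preimage (he1 a).injOn
  have self_mem : ∀ a : ℕ ⊕ W, e a ⁻¹' (A a) ∈ p := by
    intro a
    have h1 : e a ⁻¹' (A a) = Set.univ := by
      rw [← he2 a]; exact preimage_range _
    rw [h1]; exact Filter.univ_mem
  -- the ideal
  obtain ⟨𝒲, h𝒲⟩ : ∃ 𝒲 : Set (Set ℕ), 𝒲 = {X | ∀ a, e a ⁻¹' X ∉ p} := ⟨_, rfl⟩
  have mem𝒲 : ∀ X, X ∈ 𝒲 ↔ ∀ a, e a ⁻¹' X ∉ p := by
    intro X; rw [h𝒲]; rfl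
  have sub_notMem : ∀ X ∈ 𝒲, X ∉ p := by
    intro X hX hXp
    obtain ⟨b, hb⟩ := hV2 Xᶜ (Ultrafilter.compl_notMem_iff.2 hXp)
    obtain ⟨a, ha⟩ := hW2 {b} (countable_singleton b)
    have hab : b < a := ha b rfl
    have h1 : e (Sum.inr a) ⁻¹' Xᶜ ∉ p := by
      apply fin_not
      rw [hAr]
      exact (hA02 a b hab).subset (inter_subset_inter_right _ hb)
    rw [preimage_compl, Ultrafilter.compl_notMem_iff] at h1
    exact (mem𝒲 X).1 hX _ h1
  -- enumerations of initial segments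
  have hc0 : ∀ a : W, (Iic a).Countable := by
    intro a
    rw [← Iio_insert]; exact (hW a).insert a
  have hc : ∀ a : W, ∃ c : ℕ → W, range c = Iic a := by
    intro a
    obtain ⟨c, hc⟩ := (hc0 a).exists_eq_range ⟨a, le_rfl⟩
    exact ⟨c, hc.symm⟩
  choose c' hc' using hc
  have hk : ∀ a : W, ∃ c : ℕ → ℕ ⊕ W, range c = range Sum.inl ∪ Sum.inr '' Iic a := by
    intro a
    have h1 : (range (Sum.inl : ℕ → ℕ ⊕ W) ∪ Sum.inr '' Iic a).Countable :=
      (countable_range _).union ((hc0 a).image _)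
    obtain ⟨c, hc⟩ := h1.exists_eq_range ⟨Sum.inl 0, Or.inl ⟨0, rfl⟩⟩
    exact ⟨c, hc.symm⟩
  choose c hc using hk
  -- generators
  obtain ⟨Gen, hGen⟩ : ∃ Gen : W × W × W × Bool → Set ℕ, ∀ t, Gen t =
      {x | x ∈ V t.1 ∧ ∀ n m : ℕ, e (c t.1 n) m = x → ∃ k ≤ G t.2.2.1 n, m ∈ V (c' t.2.1 k)} :=
    ⟨_, fun _ => rfl⟩
  have gen_mem : ∀ t, Gen t ∈ 𝒲 := by
    intro t
    rw [mem𝒲]
    intro a
    have hcase : a ∈ range (c t.1) ∨ ∃ b, a = Sum.inr b ∧ t.1 < b := by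
      rw [hc]
      rcases a with n | b
      · left; left; exact ⟨n, rfl⟩
      · rcases le_or_gt b t.1 with h | h
        · left; right; exact ⟨b, h, rfl⟩
        · right; exact ⟨b, rfl, h⟩
    rcases hcase with ⟨n, rfl⟩ | ⟨b, rfl, h⟩
    · have h2 : ⋃₀ ((fun k => V (c' t.2.1 k)) '' Iic (G t.2.2.1 n)) ∉ p := by
        apply sUnion_notMem ((finite_Iic _).image _)
        rintro s ⟨k, _, rfl⟩
        exact hV _
      intro h3
      apply h2
      refine Filter.mem_of_superset h3 ?_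
      intro m hm
      rw [mem_preimage, hGen] at hm
      obtain ⟨k, hk, hmk⟩ := hm.2 n m rfl
      exact ⟨_, ⟨k, hk, rfl⟩, hmk⟩
    · apply fin_not
      rw [hAr]
      refine (hA02 b t.1 h).subset (inter_subset_inter_right _ ?_)
      intro x hx
      rw [hGen] at hx
      exact hx.1
  have gen_cof : ∀ X ∈ 𝒲, ∃ t : W × W × W, ∀ β : Bool, X ⊆ Gen (t.1, t.2.1, t.2.2, β) := by
    intro X hX
    obtain ⟨b, hb⟩ := hV2 X (sub_notMem X hX)
    have h1 : ∀ n, ∃ j, e (c b n) ⁻¹' X ⊆ V j := fun n => hV2 _ ((mem𝒲 X).1 hX _)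
    choose j hj using h1
    obtain ⟨γ, hγ⟩ := hW2 (range j) (countable_range j)
    have h2 : ∀ n, ∃ k, c' γ k = j n := by
      intro n
      have : j n ∈ range (c' γ) := by
        rw [hc']; exact (hγ _ (mem_range_self n)).le
      exact this
    choose f hf using h2
    obtain ⟨g, hg⟩ := hG f
    refine ⟨(b, γ, g), fun β x hx => ?_⟩
    rw [hGen]
    refine ⟨hb hx, ?_⟩
    intro n m hm
    refine ⟨f n, hg n, ?_⟩
    rw [hf]
    apply hj n
    rw [mem_preimage, hm]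
    exact hx
  -- the family
  obtain ⟨ψ⟩ := Cardinal.eq.1 hcard
  obtain ⟨B, hBl, hBr⟩ : ∃ B : ℕ ⊕ W → Set ℕ, (∀ n, B (Sum.inl n) = D n) ∧
      ∀ i, B (Sum.inr i) = A₀ i ∪ Gen (ψ.symm i) :=
    ⟨Sum.elim D (fun i => A₀ i ∪ Gen (ψ.symm i)), fun _ => rfl, fun _ => rfl⟩
  have hAB : ∀ i, A i ⊆ B i := by
    rintro (n | i)
    · rw [hAl, hBl]; exact hED n
    · rw [hAr, hBr]; exact subset_union_left
  have B_self : ∀ i, e i ⁻¹' (B i) ∈ p := by
    intro i
    exact Filter.mem_of_superset (self_mem i) (preimage_mono (hAB i))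
  have B_other : ∀ i j, i ≠ j → e i ⁻¹' (B j) ∉ p := by
    rintro i (n | j) hij
    · rw [hBl]
      exact fin_not i _ (hAlD i n hij)
    · rw [hBr, preimage_union]
      refine union_notMem (fin_not i _ ?_) ((mem𝒲 _).1 (gen_mem _) i)
      have := hAD i (Sum.inr j) hij
      rwa [hAr] at this
  have B_inj : Function.Injective B := by
    intro i j hij
    by_contra hne
    exact B_other i j hne (hij ▸ B_self i)
  have cover : ∀ X ∈ 𝒲, ∀ i, ∃ j, j ≠ i ∧ X ⊆ B j := by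
    intro X hX i
    obtain ⟨t, ht⟩ := gen_cof X hX
    have h1 : ∀ β : Bool, X ⊆ B (Sum.inr (ψ (t.1, t.2.1, t.2.2, β))) := by
      intro β
      rw [hBr, Equiv.symm_apply_apply]
      exact (ht β).trans subset_union_right
    by_cases h : Sum.inr (ψ (t.1, t.2.1, t.2.2, true)) = i
    · refine ⟨_, ?_, h1 false⟩
      rw [← h]
      intro h2
      have h3 := ψ.injective (Sum.inr_injective h2)
      simp at h3
    · exact ⟨_, h, h1 true⟩
  refine ⟨range B, ⟨⟨?_, ?_⟩, ?_⟩, ?_, ?_⟩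
  · rintro s ⟨i, rfl⟩
    exact (hA1 i).mono (hAB i)
  · rintro s ⟨i, rfl⟩ F hF hFs
    have h0 : e i ⁻¹' (⋃₀ F) ∉ p := by
      rw [preimage_sUnion]
      have h2 : (⋃ t ∈ F, e i ⁻¹' t) = ⋃₀ ((fun t => e i ⁻¹' t) '' F) := by
        rw [sUnion_image]
      rw [h2]
      apply sUnion_notMem (hF.image _)
      rintro s ⟨t, ht, rfl⟩
      obtain ⟨⟨j, rfl⟩, hj⟩ := hFs ht
      apply B_other
      rintro rfl
      exact hj rfl
    have h1 : e i ⁻¹' (B i \ ⋃₀ F) ∈ p := by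
      filter_upwards [B_self i, Ultrafilter.compl_mem_iff_notMem.2 h0] with m h3 h4
      exact ⟨h3, h4⟩
    have h2 := infinite_of_mem hp h1
    intro h3
    exact h2 (h3.preimage (he1 i).injOn)
  · intro J hJ hIJ
    refine Subset.antisymm ?_ hIJ
    intro X hXJ
    by_contra hXI
    -- `X` is not covered
    have hX𝒲 : X ∉ 𝒲 := by
      intro h
      obtain ⟨j, _, hj⟩ := cover X h (Sum.inl 0)
      have h1 := hJ.2 X hXJ {B j} (finite_singleton _) (by
        rw [singleton_subset_iff]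
        refine ⟨hIJ (mem_range_self j), ?_⟩
        intro h2
        rw [mem_singleton_iff] at h2
        exact hXI ⟨j, h2⟩)
      rw [sUnion_singleton, diff_eq_empty.2 hj] at h1
      exact h1 finite_empty
    have h1 : ∃ i, e i ⁻¹' X ∈ p := by
      by_contra hcon
      apply hX𝒲
      rw [mem𝒲]
      intro a ha
      exact hcon ⟨a, ha⟩
    obtain ⟨i, hi⟩ := h1
    have h2 : B i \ X ∈ 𝒲 := by
      rw [mem𝒲]
      intro a ha
      by_cases hai : a = i
      · subst hai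
        have h3 := Filter.inter_mem ha hi
        have h4 : e a ⁻¹' (B a \ X) ∩ e a ⁻¹' X = ∅ := by
          ext m
          simp only [mem_inter_iff, mem_preimage, mem_diff, mem_empty_iff_false, iff_false]
          rintro ⟨⟨_, h5⟩, h6⟩
          exact h5 h6
        rw [h4] at h3
        exact finite_notMem hp finite_empty h3
      · exact B_other a i hai (Filter.mem_of_superset ha (preimage_mono diff_subset))
    obtain ⟨j, hji, hj⟩ := cover _ h2 i
    have h3 := hJ.2 (B i) (hIJ (mem_range_self i)) {X, B j} (by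
      exact (finite_singleton _).insert _) (by
      intro s hs
      rcases hs with hs | hs
      · rw [hs]
        refine ⟨hXJ, ?_⟩
        intro h4
        rw [mem_singleton_iff] at h4
        exact hXI ⟨i, h4.symm⟩
      · rw [mem_singleton_iff] at hs
        rw [hs]
        refine ⟨hIJ (mem_range_self j), ?_⟩
        intro h4
        rw [mem_singleton_iff] at h4
        exact hji (B_inj h4))
    apply h3
    have h4 : B i \ ⋃₀ {X, B j} = ∅ := by
      rw [diff_eq_empty]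
      intro x hx
      by_cases hxX : x ∈ X
      · exact ⟨X, mem_insert _ _, hxX⟩
      · exact ⟨B j, mem_insert_of_mem _ rfl, hj ⟨hx, hxX⟩⟩
    rw [h4]
    exact finite_empty
  · rintro s ⟨n, rfl⟩
    exact ⟨Sum.inl n, hBl n⟩
  · rw [Cardinal.mk_range_eq B B_inj, Cardinal.mk_sum, Cardinal.lift_id, Cardinal.lift_id,
      Cardinal.mk_nat]
    exact Cardinal.add_eq_right hWinf hWinf

end

/-- A family with a finite part covering almost everything is finite and maximal. -/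
theorem finite_maximal {I : Set (Set ℕ)} (hI : IdealIndependent I) {F : Set (Set ℕ)}
    (hFI : F ⊆ I) (hF : F.Finite) (hcov : (⋃₀ F)ᶜ.Finite) :
    I.Finite ∧ MaximalIdealIndependent I := by
  have key : ∀ J : Set (Set ℕ), IdealIndependent J → F ⊆ J → J ⊆ F := by
    intro J hJ hFJ A hA
    by_contra hAF
    have h1 := hJ.2 A hA F hF (fun B hB => ⟨hFJ hB, fun h => hAF (by
      rw [mem_singleton_iff] at h; rw [← h]; exact hB)⟩)
    exact h1 (hcov.subset (fun x hx => hx.2))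
  have h1 : I = F := Subset.antisymm (key I hI hFI) hFI
  refine ⟨h1 ▸ hF, hI, fun J hJ hIJ => ?_⟩
  refine Subset.antisymm ?_ hIJ
  rw [h1]
  exact key J hJ (hFI.trans hIJ)

/-- Adding infinitely many disjoint sets outside the union of a finite family. -/
theorem exists_infinite {I : Set (Set ℕ)} (hI : IdealIndependent I) (hfin : I.Finite)
    (hcov : (⋃₀ I)ᶜ.Infinite) :
    ∃ J : Set (Set ℕ), I ⊆ J ∧ IdealIndependent J ∧ J.Countable ∧ J.Infinite := by
  classical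
  obtain ⟨u, hu1, hu2⟩ : ∃ u : ℕ → ℕ, Function.Injective u ∧ range u = (⋃₀ I)ᶜ :=
    ⟨Nat.nth (· ∈ (⋃₀ I)ᶜ), Nat.nth_injective hcov, Nat.range_nth_of_infinite hcov⟩
  obtain ⟨Y, hY⟩ : ∃ Y : ℕ → Set ℕ, ∀ k, Y k = range (fun j => u (Nat.pair k j)) :=
    ⟨_, fun _ => rfl⟩
  have hYinf : ∀ k, (Y k).Infinite := by
    intro k
    rw [hY]
    refine infinite_range_of_injective ?_
    intro a b hab
    have := hu1 hab
    exact (Nat.pair_eq_pair.1 this).2
  have hYd : ∀ k l, k ≠ l → Disjoint (Y k) (Y l) := by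
    intro k l hkl
    rw [Set.disjoint_left, hY, hY]
    rintro x ⟨a, rfl⟩ ⟨b, hb⟩
    have := hu1 hb
    exact hkl (Nat.pair_eq_pair.1 this).1.symm
  have hYI : ∀ k, ∀ A ∈ I, Disjoint (Y k) A := by
    intro k A hA
    rw [Set.disjoint_left, hY]
    rintro x ⟨a, rfl⟩ hx
    have h1 : u (Nat.pair k a) ∈ (⋃₀ I)ᶜ := hu2 ▸ mem_range_self _
    exact h1 ⟨A, hA, hx⟩
  have hYinj : Function.Injective Y := by
    intro k l hkl
    by_contra hne
    have h1 := hYd k l hne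
    rw [hkl, disjoint_self] at h1
    have h2 := hYinf l
    rw [h1] at h2
    exact h2 finite_empty
  refine ⟨I ∪ range Y, subset_union_left, ⟨?_, ?_⟩, hfin.countable.union (countable_range Y),
    (infinite_range_of_injective hYinj).mono subset_union_right⟩
  · rintro A (hA | ⟨k, rfl⟩)
    · exact hI.1 A hA
    · exact hYinf k
  · rintro A (hA | ⟨k, rfl⟩) F hF hFs
    · have h1 := hI.2 A hA (F ∩ I) (hF.inter_of_left _) (by
        rintro B ⟨hB, hBI⟩
        exact ⟨hBI, (hFs hB).2⟩)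
      refine h1.mono ?_
      rintro x ⟨hxA, hx⟩
      refine ⟨hxA, ?_⟩
      rintro ⟨B, hB, hxB⟩
      rcases (hFs hB).1 with h | ⟨k, rfl⟩
      · exact hx ⟨B, ⟨hB, h⟩, hxB⟩
      · exact Set.disjoint_left.1 (hYI k A hA) hxB hxA
    · refine (hYinf k).mono ?_
      intro x hx
      refine ⟨hx, ?_⟩
      rintro ⟨B, hB, hxB⟩
      rcases (hFs hB).1 with h | ⟨l, rfl⟩
      · exact Set.disjoint_left.1 (hYI k B h) hx hxB
      · have hkl : k ≠ l := by
          rintro rfl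
          exact (hFs hB).2 rfl
        exact Set.disjoint_left.1 (hYd k l hkl) hx hxB

/-- Infinite sets inside one member and almost disjoint from the others. -/
theorem exists_E {D : ℕ → Set ℕ} (hD : Function.Injective D)
    (hI : IdealIndependent (range D)) (n : ℕ) :
    ∃ E : Set ℕ, E.Infinite ∧ E ⊆ D n ∧ ∀ m, n ≠ m → (E ∩ D m).Finite := by
  obtain ⟨φ, hφ, hφC⟩ := extraction_forall_of_frequently
    (P := fun k x => x ∈ D n ∧ ∀ i ≤ k, i ≠ n → x ∉ D i) (by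
      intro k
      rw [Nat.frequently_atTop_iff_infinite]
      refine (hI.2 (D n) ⟨n, rfl⟩ (D '' (Iic k \ {n}))
        (((finite_Iic k).subset sdiff_subset).image _) ?_).mono ?_
      · rintro s ⟨i, hi, rfl⟩
        refine ⟨mem_range_self i, fun h => hi.2 (hD h)⟩
      · rintro x ⟨hx, hx2⟩
        exact ⟨hx, fun i hi hin hxi => hx2 ⟨D i, ⟨i, ⟨hi, hin⟩, rfl⟩, hxi⟩⟩)
  refine ⟨range φ, infinite_range_of_injective hφ.injective, ?_, ?_⟩
  · rintro x ⟨k, rfl⟩
    exact (hφC k).1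
  · intro m hm
    apply ((finite_Iio m).image φ).subset
    rintro x ⟨⟨k, rfl⟩, hxk⟩
    refine ⟨k, ?_, rfl⟩
    by_contra hk
    exact (hφC k).2 m (not_lt.1 hk) (Ne.symm hm) hxk

/-- An infinite set almost disjoint from all members of a countably infinite family. -/
theorem exists_X {D : ℕ → Set ℕ} (hD : Function.Injective D)
    (hI : IdealIndependent (range D)) :
    ∃ X : Set ℕ, X.Infinite ∧ ∀ m, (X ∩ D m).Finite := by
  obtain ⟨φ, hφ, hφC⟩ := extraction_forall_of_frequently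
    (P := fun k x => ∀ i ≤ k, x ∉ D i) (by
      intro k
      rw [Nat.frequently_atTop_iff_infinite]
      refine (hI.2 (D (k + 1)) ⟨k + 1, rfl⟩ (D '' Iic k) ((finite_Iic k).image _) ?_).mono ?_
      · rintro s ⟨i, hi, rfl⟩
        refine ⟨mem_range_self i, fun h => ?_⟩
        have h1 := hD h
        rw [mem_Iic] at hi
        omega
      · rintro x ⟨_, hx2⟩ i hi hxi
        exact hx2 ⟨D i, ⟨i, hi, rfl⟩, hxi⟩)
  refine ⟨range φ, infinite_range_of_injective hφ.injective, ?_⟩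
  intro m
  apply ((finite_Iio m).image φ).subset
  rintro x ⟨⟨k, rfl⟩, hxk⟩
  refine ⟨k, ?_, rfl⟩
  by_contra hk
  exact hφC k m (not_lt.1 hk) hxk

/-- **Extension theorem.** -/
theorem extension (hd : dNumber = ℵ₁) (hu : uNumber = ℵ₁) {I₀ : Set (Set ℕ)}
    (hI₀ : IdealIndependent I₀) (hc : I₀.Countable) (hinf : I₀.Infinite) :
    ∃ I : Set (Set ℕ), I₀ ⊆ I ∧ MaximalIdealIndependent I ∧ #I = ℵ₁ := by
  classical
  have h01 : (ℵ₁ : Cardinal.{0}) ≠ 0 := (Cardinal.aleph_pos 1).ne'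
  have hℵ : (ℵ₀ : Cardinal.{0}) ≤ ℵ₁ := Cardinal.aleph0_le_aleph 1
  -- the enumeration of the family
  obtain ⟨D, hDinj, hDr⟩ : ∃ D : ℕ → Set ℕ, Function.Injective D ∧ range D = I₀ := by
    have h1 : Infinite I₀ := hinf.to_subtype
    have h2 : Countable I₀ := hc.to_subtype
    obtain ⟨ε⟩ : Nonempty (ℕ ≃ I₀) := by
      obtain ⟨δ⟩ := nonempty_denumerable I₀
      exact ⟨(Denumerable.eqv I₀).symm⟩
    refine ⟨fun n => (ε n).1, fun a b hab => ε.injective (Subtype.ext hab), ?_⟩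
    ext s
    constructor
    · rintro ⟨n, rfl⟩
      exact (ε n).2
    · intro hs
      exact ⟨ε.symm ⟨s, hs⟩, by simp⟩
  subst hDr
  choose E hE1 hE2 hE3 using exists_E hDinj hI₀
  obtain ⟨X, hX1, hX2⟩ := exists_X hDinj hI₀
  obtain ⟨Dm, hDdom, hDcard⟩ := csInf_mem (s := {κ | ∃ D : Set (ℕ → ℕ),
      (∀ f : ℕ → ℕ, ∃ g ∈ D, ∀ᶠ n in atTop, f n ≤ g n) ∧ #D = κ}) (by
    by_contra hne
    rw [not_nonempty_iff_eq_empty] at hne
    apply h01
    rw [← hd, dNumber, hne]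
    exact Cardinal.sInf_empty)
  rw [show sInf {κ | ∃ D : Set (ℕ → ℕ),
      (∀ f : ℕ → ℕ, ∃ g ∈ D, ∀ᶠ n in atTop, f n ≤ g n) ∧ #D = κ} = ℵ₁ from hd] at hDcard
  obtain ⟨p₀, hp₀, B₀, hB₀, hBcard₀⟩ := csInf_mem (s := {κ | ∃ p : Ultrafilter ℕ,
      (∀ n : ℕ, {n} ∉ p) ∧ ∃ B : Set (Set ℕ), IsBase p B ∧ #B = κ}) (by
    by_contra hne
    rw [not_nonempty_iff_eq_empty] at hne
    apply h01
    rw [← hu, uNumber, hne]
    exact Cardinal.sInf_empty)
  rw [show sInf {κ | ∃ p : Ultrafilter ℕ,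
      (∀ n : ℕ, {n} ∉ p) ∧ ∃ B : Set (Set ℕ), IsBase p B ∧ #B = κ} = ℵ₁ from hu] at hBcard₀
  -- transfer of the ultrafilter to `X`
  obtain ⟨u, hu1, hu2⟩ : ∃ u : ℕ → ℕ, Function.Injective u ∧ range u = X :=
    ⟨Nat.nth (· ∈ X), Nat.nth_injective hX1, Nat.range_nth_of_infinite hX1⟩
  have hpre : ∀ Y : Set ℕ, (X ∩ Y).Finite → u ⁻¹' Y ∉ p₀ := by
    intro Y hY
    apply finite_notMem hp₀
    have h1 : u ⁻¹' Y = u ⁻¹' (X ∩ Y) := by
      ext m
      simp only [mem_preimage, mem_inter_iff]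
      exact ⟨fun h => ⟨hu2 ▸ mem_range_self m, h⟩, fun h => h.2⟩
    rw [h1]
    exact hY.preimage hu1.injOn
  obtain ⟨p, hpmem⟩ : ∃ p : Ultrafilter ℕ, ∀ Y : Set ℕ, Y ∈ p ↔ u ⁻¹' Y ∈ p₀ :=
    ⟨p₀.map u, fun Y => Ultrafilter.mem_map⟩
  have hp : ∀ n : ℕ, {n} ∉ p := by
    intro n
    rw [hpmem]
    exact hpre _ ((finite_singleton n).subset inter_subset_right)
  have hDp : ∀ n, D n ∉ p := by
    intro n
    rw [hpmem]
    exact hpre _ (hX2 n)
  obtain ⟨B, hBdef⟩ : ∃ B : Set (Set ℕ), B = (fun b => u '' b) '' B₀ := ⟨_, rfl⟩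
  have hB : IsBase p B := by
    constructor
    · intro b hb
      rw [hBdef] at hb
      obtain ⟨b, hb, rfl⟩ := hb
      rw [hpmem]
      exact Filter.mem_of_superset (hB₀.1 b hb) (subset_preimage_image u b)
    · intro U hU
      rw [hpmem] at hU
      obtain ⟨b, hb, hfin⟩ := hB₀.2 _ hU
      refine ⟨u '' b, by rw [hBdef]; exact ⟨b, hb, rfl⟩, ?_⟩
      refine (hfin.image u).subset ?_
      rintro x ⟨⟨y, hy, rfl⟩, hx⟩
      exact ⟨y, ⟨hy, hx⟩, rfl⟩
  have hBcard : #B = ℵ₁ := by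
    rw [hBdef, Cardinal.mk_image_eq hu1.image_injective, hBcard₀]
  -- the index set
  have hWcard : #((ℵ₁ : Cardinal.{0}).ord.ToType) = ℵ₁ := Cardinal.mk_ord_toType _
  have hW : ∀ a : (ℵ₁ : Cardinal.{0}).ord.ToType, (Iio a).Countable := by
    intro a
    rw [← Cardinal.le_aleph0_iff_set_countable]
    have h1 : #(Iio a) < ℵ₁ := Cardinal.mk_Iio_ord_toType a
    exact Order.lt_succ_iff.1 (h1.trans_eq Cardinal.succ_aleph0.symm)
  have hW2 : ∀ s : Set (ℵ₁ : Cardinal.{0}).ord.ToType, s.Countable → ∃ b, ∀ a ∈ s, a < b := by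
    intro s hs
    by_contra hcon
    push Not at hcon
    have h1 : (Set.univ : Set (ℵ₁ : Cardinal.{0}).ord.ToType).Countable := by
      refine (hs.biUnion (t := fun a _ => Iic a) ?_).mono ?_
      · intro a _
        rw [← Iio_insert]
        exact (hW a).insert a
      · intro b _
        obtain ⟨a, ha, hba⟩ := hcon b
        exact mem_biUnion ha hba
    rw [← Cardinal.le_aleph0_iff_set_countable, Cardinal.mk_univ, hWcard,
      ← Cardinal.succ_aleph0] at h1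
    exact absurd h1 (not_le.2 (Order.lt_succ _))
  have hcard : #((ℵ₁ : Cardinal.{0}).ord.ToType × (ℵ₁ : Cardinal.{0}).ord.ToType ×
      (ℵ₁ : Cardinal.{0}).ord.ToType × Bool) = #((ℵ₁ : Cardinal.{0}).ord.ToType) := by
    simp only [Cardinal.mk_prod, Cardinal.lift_id, hWcard, Cardinal.lift_aleph, Cardinal.mk_bool]
    have h2 : (ℵ₁ : Cardinal.{0}) * 2 = ℵ₁ :=
      Cardinal.mul_eq_left hℵ ((Cardinal.nat_lt_aleph0 2).le.trans hℵ) two_ne_zero
    rw [h2, Cardinal.mul_eq_self hℵ, Cardinal.mul_eq_self hℵ]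
  -- the sets `V`
  have hBF : #((ℵ₁ : Cardinal.{0}).ord.ToType) = #(B × Finset ℕ) := by
    rw [Cardinal.mk_prod, Cardinal.lift_id, Cardinal.lift_id, hBcard, hWcard,
      Cardinal.mk_finset_of_infinite,
      Cardinal.mk_nat, Cardinal.mul_eq_left hℵ hℵ Cardinal.aleph0_ne_zero]
  obtain ⟨φ⟩ := Cardinal.eq.1 hBF
  have hDN : #((ℵ₁ : Cardinal.{0}).ord.ToType) = #(Dm × ℕ) := by
    rw [Cardinal.mk_prod, Cardinal.lift_id, Cardinal.lift_id, hDcard, hWcard,
      Cardinal.mk_nat, Cardinal.mul_eq_left hℵ hℵ Cardinal.aleph0_ne_zero]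
  obtain ⟨χ⟩ := Cardinal.eq.1 hDN
  obtain ⟨I, hI, hDI, hIcard⟩ := exists_ext hW hW2 hcard (by rw [hWcard]; exact hℵ) hp
    (fun a => ((φ a).1 : Set ℕ)ᶜ ∪ ((φ a).2 : Set ℕ)) (by
      intro a
      apply union_notMem
      · rw [Ultrafilter.compl_notMem_iff]
        exact hB.1 _ (φ a).1.2
      · exact finite_notMem hp (Finset.finite_toSet _)) (by
      intro X hX
      obtain ⟨b, hb, hfin⟩ := hB.2 Xᶜ (Ultrafilter.compl_mem_iff_notMem.2 hX)
      refine ⟨φ.symm (⟨b, hb⟩, hfin.toFinset), ?_⟩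
      intro x hx
      show x ∈ ((φ _).1 : Set ℕ)ᶜ ∪ ((φ _).2 : Set ℕ)
      rw [Equiv.apply_symm_apply]
      by_cases hxb : x ∈ b
      · right
        rw [Finset.mem_coe, Set.Finite.mem_toFinset]
        exact ⟨hxb, fun h => h hx⟩
      · left
        exact hxb)
    (fun a n => (χ a).1.1 n + (χ a).2) (by
      intro f
      obtain ⟨g, hg, hfg⟩ := hDdom f
      obtain ⟨N, hN⟩ := eventually_atTop.1 hfg
      refine ⟨χ.symm (⟨g, hg⟩, (Finset.range N).sum f), ?_⟩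
      intro n
      show f n ≤ (χ _).1.1 n + (χ _).2
      rw [Equiv.apply_symm_apply]
      rcases le_or_gt N n with h | h
      · exact (hN n h).trans (Nat.le_add_right _ _)
      · have h1 : f n ≤ (Finset.range N).sum f :=
          Finset.single_le_sum (f := f) (fun _ _ => Nat.zero_le _) (Finset.mem_range.2 h)
        exact h1.trans (Nat.le_add_left _ _))
    D E hE1 hE2 hE3 hDp
  rw [hWcard] at hIcard
  exact ⟨I, hDI, hI, hIcard⟩

/-- Every countable ideal independent family. -/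
theorem dichotomy (hd : dNumber = ℵ₁) (hu : uNumber = ℵ₁) {I₀ : Set (Set ℕ)}
    (hI₀ : IdealIndependent I₀) (hc : I₀.Countable) :
    (I₀.Finite ∧ MaximalIdealIndependent I₀) ∨
      ∃ I : Set (Set ℕ), I₀ ⊆ I ∧ MaximalIdealIndependent I ∧ #I = ℵ₁ := by
  by_cases hinf : I₀.Infinite
  · exact Or.inr (extension hd hu hI₀ hc hinf)
  · rw [not_infinite] at hinf
    by_cases hcov : (⋃₀ I₀)ᶜ.Infinite
    · obtain ⟨J, hIJ, hJ, hJc, hJi⟩ := exists_infinite hI₀ hinf hcov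
      obtain ⟨I, hI1, hI2, hI3⟩ := extension hd hu hJ hJc hJi
      exact Or.inr ⟨I, hIJ.trans hI1, hI2, hI3⟩
    · rw [not_infinite] at hcov
      exact Or.inl (finite_maximal hI₀ (Subset.refl _) hinf hcov)

end Pool.Agent.Y375.MI
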